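import Mathlib
import Pool.Agent.Q63.PC.Defs

/-!
# Abelian coverings of the Hirzebruch surfaces: definitions

`F_e`, `e ≥ 1`, has the fibre `F` and the negative section `Δ`, `Δ^2 = -e`. The branch curves are `D_0 = Δ` and curves
`D_i`, `i ≥ 1`, which do not contain `Δ`. `d i = D_i · F` (so `d 0 = 1`) and `t i = D_i · Δ` (so `t 0 = -e` and
`t i ≥ 0` for `i ≥ 1`).
-/

set_option autoImplicit false

namespace Pool.Agent.Q63.HC

open Pool.Agent.Q63.PC

/-- `m` times the degree of `L_a` on the curve `Δ`, if `t i = D_i · Δ`. -/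
def numz {m s : ℕ} (t : Fin s → ℤ) (a : Fin s → ZMod m) : ℤ := ∑ i, t i * ((a i).val : ℤ)

/-- The line bundle `K + L_a = (α - 2) Δ + (β - 2 - e) F` has sections, where `α = L_a · F` and
`β = L_a · Δ + e α`. -/
def HasForms {m s : ℕ} (e : ℕ) (d : Fin s → ℕ) (t : Fin s → ℤ) (a : Fin s → ZMod m) : Prop :=
  2 * m ≤ num d a ∧ ((e : ℤ) + 2) * m ≤ numz t a + e * num d a

/-- The intersection numbers of the branch curves with `F` and `Δ`. -/
structure BranchCurves {s : ℕ} (e : ℕ) (d : Fin (s + 1) → ℕ) (t : Fin (s + 1) → ℤ) : Prop where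
  pos : 1 ≤ e
  d_zero : d 0 = 1
  t_zero : t 0 = -(e : ℤ)
  t_nonneg : ∀ i, i ≠ 0 → 0 ≤ t i
  nonzero : ∀ i, i ≠ 0 → d i = 0 → t i ≠ 0

/-- `X` is (a desingularisation of) the abelian covering of the Hirzebruch surface `F_e` over `ℂ`, branched over smooth
curves `D_0 = Δ` (possibly unramified) and `D_i` whose union has normal crossings. Its group `G` is a quotient of
`(ℤ/m)^(s+1)` (the `i`-th generator goes to the canonical generator of the inertia group of `D_i`), and `Λ` is the
group of the characters of `G`. `V` is the tensor product with `ℂ` of the kernel of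
the Albanese map on the zero-cycles of degree zero of `X`. -/
structure HirzebruchCover {m s : ℕ} [NeZero m] (e : ℕ) (d : Fin (s + 1) → ℕ) (t : Fin (s + 1) → ℤ)
    (Λ : AddSubgroup (Fin (s + 1) → ZMod m)) (ψ : AddChar (ZMod m) ℂ) {V : Type} [AddCommGroup V]
    [Module ℂ V] (ρ : Representation ℂ (Multiplicative (Fin (s + 1) → ZMod m)) V) : Prop where
  /-- only characters of `G` occur -/
  characters : ∀ (a : Fin (s + 1) → ZMod m) (v : V), v ≠ 0 → Eigen ψ ρ a v → a ∈ Λ
  /-- the intersection numbers of `L_a` are integers -/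
  integral : ∀ a ∈ Λ, ∑ i, a i * (d i : ZMod m) = 0 ∧ ∑ i, a i * (t i : ZMod m) = 0
  /-- The fibres of `X / ker a → P^1` are branched over at most three points: `X / ker a` is dominated by a
  product of curves (if it has no two-forms, Bloch's conjecture is true for it, by Kimura). -/
  fibred : ∀ a ∈ Λ, branch d a ≤ 3 → (∀ n : ℕ, ¬ HasForms e d t (n • a)) →
    ∀ v, KerFixed ρ a v → v = 0
  /-- `e = 1`, and `X / ker a` is birational to a covering of `P^2` branched over a curve of degree four with normal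
  crossings: `Δ` does not meet the branch curve, or it belongs to it, meets exactly one other branch curve once,
  and they have the same exponent. (If there are no two-forms then Bloch's conjecture is known.) -/
  plane : e = 1 → ∀ a ∈ Λ, branch d a = 4 →
    ((a 0 = 0 ∧ ∀ i, i ≠ 0 → a i ≠ 0 → t i = 0) ∨
      (a 0 ≠ 0 ∧ ∃ j, j ≠ 0 ∧ a j = a 0 ∧ t j = 1 ∧ ∀ i, i ≠ 0 → i ≠ j → a i ≠ 0 → t i = 0)) →
    (∀ n : ℕ, ¬ HasForms e d t (n • a)) → ∀ v, KerFixed ρ a v → v = 0
  /-- `e = 2`: double coverings branched over `Δ` and a curve in `|3 Δ + 6 F|` are rational -/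
  cone : e = 2 → ∀ a ∈ Λ, a 0 ≠ 0 → branch d a = 4 → (∀ i, i ≠ 0 → a i ≠ 0 → t i = 0) → (∀ i, 2 * a i = 0) →
    ∀ v, KerFixed ρ a v → v = 0
  /-- `e = 2`, three branch curves in `|Δ + 2 F|` with the exponents `1/2`, `x`, `-x`, and `Δ` with the exponent
  `1/2`: `X / ker a` has a pencil of rational curves and is rational -/
  conics : e = 2 → ∀ a ∈ Λ, 2 * a 0 = 0 → ∀ i j l : Fin (s + 1), i ≠ 0 → j ≠ 0 → l ≠ 0 → i ≠ j → i ≠ l → j ≠ l →
    d i = 1 → d j = 1 → d l = 1 → t i = 0 → t j = 0 → t l = 0 → 2 * a i = 0 → a j = -a l →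
    (∀ n, n ≠ 0 → n ≠ i → n ≠ j → n ≠ l → a n = 0) → ∀ v, KerFixed ρ a v → v = 0

end Pool.Agent.Q63.HC
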