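import Mathlib
import Pool.Agent.Q63.HC.Defs
import Pool.Agent.Q63.PC.Num
import Pool.Agent.Q63.PC.Main

set_option autoImplicit false

namespace Pool.Agent.Q63.HC

open Multiplicative Pool.Agent.Q63.PC Pool.Agent.Q63.KU

variable {m s : ℕ} [NeZero m] {e : ℕ} {d : Fin (s + 1) → ℕ} {t : Fin (s + 1) → ℤ}

lemma dvd_numz {a : Fin (s + 1) → ZMod m} (ha : ∑ i, a i * (t i : ZMod m) = 0) : (m : ℤ) ∣ numz t a := by
  rw [← ZMod.intCast_zmod_eq_zero_iff_dvd]
  unfold numz
  push_cast
  rw [← ha]
  refine Finset.sum_congr rfl fun i _ => ?_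
  rw [ZMod.natCast_zmod_val, mul_comm]

lemma numz_add_neg (a : Fin (s + 1) → ZMod m) :
    numz t a + numz t (-a) = (∑ i with a i ≠ 0, t i) * m := by
  unfold numz
  rw [← Finset.sum_add_distrib, Finset.sum_filter, Finset.sum_mul]
  refine Finset.sum_congr rfl fun i _ => ?_
  rw [Pi.neg_apply, ZMod.neg_val]
  by_cases h : a i = 0
  · simp [h]
  · rw [if_neg h, if_pos h, ← mul_add]
    congr 1
    have := (a i).val_lt
    push_cast [Nat.cast_sub this.le]
    ring

omit [NeZero m] in
lemma numz_gt (hB : BranchCurves e d t) (a : Fin (s + 1) → ZMod m) :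
    -(e : ℤ) * (a 0).val ≤ numz t a := by
  unfold numz
  rw [Fin.sum_univ_succ, hB.t_zero]
  have : 0 ≤ ∑ i : Fin s, t i.succ * ((a i.succ).val : ℤ) :=
    Finset.sum_nonneg fun i _ => mul_nonneg (hB.t_nonneg _ (Fin.succ_ne_zero i)) (Int.natCast_nonneg _)
  linarith

/-- multisets with sum three -/
lemma three {ι : Type} [DecidableEq ι] (T : Finset ι) (f : ι → ℕ) (hf : ∀ i ∈ T, 1 ≤ f i)
    (h : ∑ i ∈ T, f i = 3) :
    (∃ i, T = {i} ∧ f i = 3) ∨ (∃ i j, i ≠ j ∧ T = {i, j} ∧ f i = 2 ∧ f j = 1) ∨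
      ∃ i j l, i ≠ j ∧ i ≠ l ∧ j ≠ l ∧ T = {i, j, l} ∧ f i = 1 ∧ f j = 1 ∧ f l = 1 := by
  have hcard : T.card ≤ 3 := by
    rw [← h, Finset.card_eq_sum_ones]
    exact Finset.sum_le_sum hf
  have hne : T.card ≠ 0 := by
    intro h0
    rw [Finset.card_eq_zero] at h0
    subst h0
    simp at h
  have : T.card = 1 ∨ T.card = 2 ∨ T.card = 3 := by omega
  rcases this with hc | hc | hc
  · obtain ⟨i, rfl⟩ := Finset.card_eq_one.1 hc
    rw [Finset.sum_singleton] at h
    exact Or.inl ⟨i, rfl, h⟩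
  · obtain ⟨i, j, hij, rfl⟩ := Finset.card_eq_two.1 hc
    rw [Finset.sum_insert (by simpa using hij), Finset.sum_singleton] at h
    have h2 := hf i (by simp)
    have h3 := hf j (by simp)
    have : (f i = 2 ∧ f j = 1) ∨ (f i = 1 ∧ f j = 2) := by omega
    rcases this with h4 | h4
    · exact Or.inr (Or.inl ⟨i, j, hij, rfl, h4.1, h4.2⟩)
    · exact Or.inr (Or.inl ⟨j, i, hij.symm, Finset.pair_comm i j, h4.2, h4.1⟩)
  · obtain ⟨i, j, l, hij, hil, hjl, rfl⟩ := Finset.card_eq_three.1 hc
    rw [Finset.sum_insert (by simp [hij, hil]), Finset.sum_insert (by simpa using hjl),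
      Finset.sum_singleton] at h
    have h2 := hf i (by simp)
    have h3 := hf j (by simp)
    have h4 := hf l (by simp)
    exact Or.inr (Or.inr ⟨i, j, l, hij, hil, hjl, rfl, by omega, by omega, by omega⟩)

variable {Λ : AddSubgroup (Fin (s + 1) → ZMod m)}

/-- first step -/
lemma step (hB : BranchCurves e d t)
    (hint : ∀ a ∈ Λ, ∑ i, a i * (d i : ZMod m) = 0 ∧ ∑ i, a i * (t i : ZMod m) = 0)
    (hno : ∀ a ∈ Λ, ¬ HasForms e d t a) {a : Fin (s + 1) → ZMod m} (ha : a ∈ Λ) :
    num d a ≤ 2 * m ∧ (num d a = 2 * m → numz t a = (1 - (e : ℤ)) * m) ∧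
      (a 0 = 0 → num d a = 2 * m → e = 1) := by
  have hm : 0 < m := Nat.pos_of_ne_zero (NeZero.ne m)
  have hmz : (0 : ℤ) < m := by exact_mod_cast hm
  obtain ⟨x, hx⟩ := dvd_num (hint a ha).1
  obtain ⟨y, hy⟩ := dvd_numz (hint a ha).2
  have he := hB.pos
  have hez : (1 : ℤ) ≤ e := by exact_mod_cast he
  have h1 := numz_gt hB a
  have h2 : ((a 0).val : ℤ) ≤ m - 1 := by
    have := (a 0).val_lt
    omega
  have hy1 : 1 - (e : ℤ) ≤ y := by
    by_contra hcon
    have h3 : y ≤ -(e : ℤ) := by omega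
    have h4 : (m : ℤ) * y ≤ m * (-(e : ℤ)) := mul_le_mul_of_nonneg_left h3 hmz.le
    have h5 : (e : ℤ) * (a 0).val ≤ e * (m - 1) := mul_le_mul_of_nonneg_left h2 (by omega)
    rw [hy] at h1
    nlinarith
  have hno' := hno a ha
  unfold HasForms at hno'
  have key : 2 ≤ x → y + e * x ≤ e + 1 := by
    intro h2x
    by_contra hcon
    apply hno'
    refine ⟨?_, ?_⟩
    · rw [hx, mul_comm]
      exact Nat.mul_le_mul_left m h2x
    · rw [hx, hy]
      push_cast
      have : (e : ℤ) + 2 ≤ y + e * x := by omega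
      nlinarith
  have hx2 : x ≤ 2 := by
    by_contra hcon
    have h3 : (3 : ℤ) ≤ x := by omega
    have h4 := key (by omega)
    nlinarith
  refine ⟨?_, ?_, ?_⟩
  · rw [hx, mul_comm]
    exact Nat.mul_le_mul_right m hx2
  · intro h
    have hx' : x = 2 := by
      rw [hx, mul_comm 2 m] at h
      exact Nat.eq_of_mul_eq_mul_left hm h
    have h4 := key (by omega)
    rw [hx'] at h4
    push_cast at h4
    have : y = 1 - (e : ℤ) := by linarith
    rw [hy, this, mul_comm]
  · intro h0 h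
    have hx' : x = 2 := by
      rw [hx, mul_comm 2 m] at h
      exact Nat.eq_of_mul_eq_mul_left hm h
    have h4 := key (by omega)
    rw [hx'] at h4
    push_cast at h4
    rw [h0] at h1
    simp only [ZMod.val_zero, Nat.cast_zero, mul_zero] at h1
    have hy0 : 0 ≤ y := by
      by_contra hcon
      have : (m : ℤ) * y < 0 := mul_neg_of_pos_of_neg hmz (by omega)
      linarith
    omega

/-- The numerical theorem: the cyclic coverings without two-forms. -/
theorem classify (hB : BranchCurves e d t)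
    (hint : ∀ a ∈ Λ, ∑ i, a i * (d i : ZMod m) = 0 ∧ ∑ i, a i * (t i : ZMod m) = 0)
    (hno : ∀ a ∈ Λ, ¬ HasForms e d t a) {a : Fin (s + 1) → ZMod m} (ha : a ∈ Λ) :
    branch d a ≤ 3 ∨
    (e = 1 ∧ branch d a = 4 ∧ ((a 0 = 0 ∧ ∀ i, i ≠ 0 → a i ≠ 0 → t i = 0) ∨
      (a 0 ≠ 0 ∧ ∃ j, j ≠ 0 ∧ a j = a 0 ∧ t j = 1 ∧ ∀ i, i ≠ 0 → i ≠ j → a i ≠ 0 → t i = 0))) ∨
    (e = 2 ∧ a 0 ≠ 0 ∧ branch d a = 4 ∧ (∀ i, i ≠ 0 → a i ≠ 0 → t i = 0) ∧ ∀ i, 2 * a i = 0) ∨
    (e = 2 ∧ 2 * a 0 = 0 ∧ ∃ i j l : Fin (s + 1), i ≠ 0 ∧ j ≠ 0 ∧ l ≠ 0 ∧ i ≠ j ∧ i ≠ l ∧ j ≠ l ∧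
      d i = 1 ∧ d j = 1 ∧ d l = 1 ∧ t i = 0 ∧ t j = 0 ∧ t l = 0 ∧ 2 * a i = 0 ∧ a j = -a l ∧
      ∀ n, n ≠ 0 → n ≠ i → n ≠ j → n ≠ l → a n = 0) := by
  classical
  have hm : 0 < m := Nat.pos_of_ne_zero (NeZero.ne m)
  have hmz : (0 : ℤ) < m := by exact_mod_cast hm
  have hna : -a ∈ Λ := Λ.neg_mem ha
  obtain ⟨h1, h2, h3⟩ := step hB hint hno ha
  obtain ⟨h1', h2', h3'⟩ := step hB hint hno hna
  have hsum := num_add_neg (d := d) a
  by_cases hb : branch d a ≤ 3
  · exact Or.inl hb
  right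
  have hb4 : branch d a = 4 := by
    have h5 : branch d a * m ≤ 4 * m := by omega
    have := Nat.le_of_mul_le_mul_right h5 hm
    omega
  rw [hb4] at hsum
  have hn : num d a = 2 * m := by omega
  have hn' : num d (-a) = 2 * m := by omega
  have hz := h2 hn
  have hz' := h2' hn'
  have hT := numz_add_neg (t := t) a
  rw [hz, hz'] at hT
  have hT2 : ∑ i with a i ≠ 0, t i = 2 - 2 * (e : ℤ) := by
    have : (∑ i with a i ≠ 0, t i) * (m : ℤ) = (2 - 2 * (e : ℤ)) * m := by
      rw [← hT]; ring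
    exact mul_right_cancel₀ hmz.ne' this
  set A : Finset (Fin (s + 1)) := Finset.univ.filter (fun i => i ≠ 0 ∧ a i ≠ 0) with hA
  have hmemA : ∀ {i}, i ∈ A ↔ i ≠ 0 ∧ a i ≠ 0 := by
    intro i
    simp [hA]
  have hTA : ∀ {M : Type} [AddCommMonoid M] (f : Fin (s + 1) → M), ∑ i with a i ≠ 0, f i =
      (if a 0 ≠ 0 then f 0 else 0) + ∑ i ∈ A, f i := by
    intro M _ f
    rw [hA, Finset.sum_filter, Finset.sum_filter, Fin.sum_univ_succ, Fin.sum_univ_succ]
    simp [Fin.succ_ne_zero]
  have hApos : 0 ≤ ∑ i ∈ A, t i := Finset.sum_nonneg fun i hi => hB.t_nonneg i (hmemA.1 hi).1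
  have hAzero : ∑ i ∈ A, t i = 0 → ∀ i, i ≠ 0 → a i ≠ 0 → t i = 0 := by
    intro h i hi hai
    exact (Finset.sum_eq_zero_iff_of_nonneg fun i hi => hB.t_nonneg i (hmemA.1 hi).1).1 h i
      (hmemA.2 ⟨hi, hai⟩)
  have hep := hB.pos
  rw [hTA t] at hT2
  by_cases h0 : a 0 = 0
  · rw [if_neg (by simpa using h0), zero_add] at hT2
    left
    have he1 := h3 h0 hn
    refine ⟨he1, hb4, Or.inl ⟨h0, hAzero ?_⟩⟩
    rw [hT2, he1]
    norm_num
  rw [if_pos h0, hB.t_zero] at hT2
  have hT3 : ∑ i ∈ A, t i = 2 - (e : ℤ) := by linarith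
  have he2 : e ≤ 2 := by omega
  have he12 : e = 1 ∨ e = 2 := by omega
  rcases he12 with he1 | he2'
  · -- the blown up plane
    left
    refine ⟨he1, hb4, Or.inr ⟨h0, ?_⟩⟩
    have hT4 : ∑ i ∈ A, t i = 1 := by rw [hT3, he1]; norm_num
    obtain ⟨j, hj, hjt⟩ : ∃ j ∈ A, t j ≠ 0 := by
      by_contra hcon
      push Not at hcon
      rw [Finset.sum_eq_zero hcon] at hT4
      norm_num at hT4
    have hsplit := Finset.add_sum_erase A t hj
    have hrest : 0 ≤ ∑ i ∈ A.erase j, t i :=
      Finset.sum_nonneg fun i hi => hB.t_nonneg i (hmemA.1 (Finset.mem_of_mem_erase hi)).1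
    have hj0 := hB.t_nonneg j (hmemA.1 hj).1
    have hj1 : t j = 1 := by omega
    have hrest0 : ∑ i ∈ A.erase j, t i = 0 := by omega
    have hothers : ∀ i, i ≠ 0 → i ≠ j → a i ≠ 0 → t i = 0 := by
      intro i hi hij hai
      exact (Finset.sum_eq_zero_iff_of_nonneg
        fun i hi => hB.t_nonneg i (hmemA.1 (Finset.mem_of_mem_erase hi)).1).1 hrest0 i
        (Finset.mem_erase.2 ⟨hij, hmemA.2 ⟨hi, hai⟩⟩)
    refine ⟨j, (hmemA.1 hj).1, ?_, hj1, hothers⟩
    have hz3 : numz t a = -((a 0).val : ℤ) + (a j).val := by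
      unfold numz
      rw [← Finset.add_sum_erase Finset.univ _ (Finset.mem_univ (0 : Fin (s + 1))), hB.t_zero, he1,
        ← Finset.add_sum_erase _ _ (Finset.mem_erase.2 ⟨(hmemA.1 hj).1, Finset.mem_univ j⟩), hj1,
        Finset.sum_eq_zero]
      · push_cast
        ring
      · intro i hi
        simp only [Finset.mem_erase, Finset.mem_univ, and_true] at hi
        by_cases hai : a i = 0
        · simp [hai]
        · rw [hothers i hi.2 hi.1 hai, zero_mul]
    rw [hz3, he1] at hz
    have : (a j).val = (a 0).val := by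
      push_cast at hz
      have h6 : ((a j).val : ℤ) = (a 0).val := by linarith
      exact_mod_cast h6
    exact ZMod.val_injective m this
  · -- the quadric cone
    right
    have hT4 : ∑ i ∈ A, t i = 0 := by rw [hT3, he2']; norm_num
    have ht0 := hAzero hT4
    have hz3 : numz t a = -2 * ((a 0).val : ℤ) := by
      unfold numz
      rw [← Finset.add_sum_erase Finset.univ _ (Finset.mem_univ (0 : Fin (s + 1))), hB.t_zero, he2',
        Finset.sum_eq_zero]
      · push_cast
        ring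
      · intro i hi
        simp only [Finset.mem_erase, Finset.mem_univ, and_true] at hi
        by_cases hai : a i = 0
        · simp [hai]
        · rw [ht0 i hi hai, zero_mul]
    rw [hz3, he2'] at hz
    have ha0 : 2 * (a 0).val = m := by
      push_cast at hz
      have h6 : 2 * ((a 0).val : ℤ) = m := by linarith
      exact_mod_cast h6
    have h2a0 : 2 * a 0 = 0 := two_mul_eq_zero ha0
    -- the character 2 a
    have h2a : (2 : ℕ) • a ∈ Λ := Λ.nsmul_mem ha 2
    have h2a' : -((2 : ℕ) • a) ∈ Λ := Λ.neg_mem h2a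
    have hval : ∀ i, ((2 : ℕ) • a) i = 2 * a i := by
      intro i
      rw [Pi.smul_apply, nsmul_eq_mul, Nat.cast_two]
    have hlt : ∀ b ∈ Λ, b 0 = 0 → num d b ≤ m := by
      intro b hb hb0
      obtain ⟨g1, g2, g3⟩ := step hB hint hno hb
      obtain ⟨x, hx⟩ := dvd_num (hint b hb).1
      have hne : x ≠ 2 := by
        rintro rfl
        have := g3 hb0 (by rw [hx, mul_comm])
        omega
      have hx2 : x ≤ 2 := by
        rw [hx, mul_comm 2 m] at g1
        exact Nat.le_of_mul_le_mul_left g1 hm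
      have : x ≤ 1 := by omega
      rw [hx]
      calc m * x ≤ m * 1 := Nat.mul_le_mul_left m this
        _ = m := mul_one m
    have hb2 : branch d ((2 : ℕ) • a) ≤ 2 := by
      have g1 := hlt _ h2a (by rw [hval]; exact h2a0)
      have g2 := hlt _ h2a' (by rw [Pi.neg_apply, hval, h2a0, neg_zero])
      have g3 := num_add_neg (d := d) ((2 : ℕ) • a)
      have g4 : branch d ((2 : ℕ) • a) * m ≤ 2 * m := by omega
      exact Nat.le_of_mul_le_mul_right g4 hm
    have hdA : ∀ i ∈ A, 1 ≤ d i := by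
      intro i hi
      by_contra hcon
      exact hB.nonzero i (hmemA.1 hi).1 (by omega) (ht0 i (hmemA.1 hi).1 (hmemA.1 hi).2)
    have hsum3 : ∑ i ∈ A, d i = 3 := by
      have g1 : branch d a = _ := hTA d
      rw [hb4, if_pos h0, hB.d_zero] at g1
      omega
    have hnumA : ∑ i ∈ A, d i * (a i).val + (a 0).val = 2 * m := by
      rw [← hn]
      unfold num
      rw [← Finset.add_sum_erase Finset.univ _ (Finset.mem_univ (0 : Fin (s + 1))), hB.d_zero, one_mul,
        add_comm]
      congr 1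
      refine Finset.sum_subset ?_ ?_
      · intro i hi
        exact Finset.mem_erase.2 ⟨(hmemA.1 hi).1, Finset.mem_univ i⟩
      · intro i hi hi'
        simp only [Finset.mem_erase, Finset.mem_univ, and_true] at hi
        have : a i = 0 := by
          by_contra hai
          exact hi' (hmemA.2 ⟨hi, hai⟩)
        simp [this]
    have hb2' : ∑ i ∈ A with 2 * a i ≠ 0, d i ≤ 2 := by
      refine le_trans ?_ hb2
      unfold branch
      refine Finset.sum_le_sum_of_subset ?_
      intro i hi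
      simp only [Finset.mem_filter, Finset.mem_univ, true_and] at hi ⊢
      rw [hval]
      exact hi.2
    have houtA : ∀ {T : Finset (Fin (s + 1))}, A = T → ∀ i, i ≠ 0 → i ∉ T → a i = 0 := by
      rintro T rfl i hi hiT
      by_contra hai
      exact hiT (hmemA.2 ⟨hi, hai⟩)
    rcases three A d hdA hsum3 with ⟨i, hT, g1⟩ | ⟨i, j, hij, hT, g1, g2⟩ |
      ⟨i, j, l, hij, hil, hjl, hT, g1, g2, g3⟩
    · left
      refine ⟨he2', h0, hb4, ht0, fun n => ?_⟩
      rw [hT, Finset.sum_singleton, g1] at hnumA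
      by_cases hn0 : n = 0
      · rw [hn0]; exact h2a0
      · by_cases hni : n = i
        · rw [hni]
          exact two_mul_eq_zero (by omega)
        · rw [houtA hT n hn0 (by simpa using hni), mul_zero]
    · left
      refine ⟨he2', h0, hb4, ht0, ?_⟩
      rw [hT, Finset.sum_insert (by simpa using hij), Finset.sum_singleton, g1, g2] at hnumA
      have hor : 2 * a i = 0 ∨ 2 * a j = 0 := by
        by_contra hcon
        push Not at hcon
        rw [hT, Finset.filter_true_of_mem, hT.symm, hsum3] at hb2'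
        · omega
        · intro n hn
          simp only [Finset.mem_insert, Finset.mem_singleton] at hn
          rcases hn with rfl | rfl
          · exact hcon.1
          · exact hcon.2
      have hval2 : ∀ {x : ZMod m}, x ≠ 0 → 2 * x = 0 → 2 * x.val = m := by
        intro x hx h2x
        have h7 : ((2 * x.val : ℕ) : ZMod m) = 0 := by
          push_cast
          rw [ZMod.natCast_zmod_val, h2x]
        rw [ZMod.natCast_eq_zero_iff] at h7
        obtain ⟨r, hr⟩ := h7
        have h8 := x.val_lt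
        have h9 : x.val ≠ 0 := fun h => hx ((ZMod.val_eq_zero x).1 h)
        have h10 : r < 2 := by
          by_contra hcon
          have : m * 2 ≤ m * r := Nat.mul_le_mul_left m (by omega)
          omega
        have h11 : r ≠ 0 := by
          rintro rfl
          omega
        have : r = 1 := by omega
        rw [hr, this, mul_one]
      have hai : a i ≠ 0 := (hmemA.1 (by rw [hT]; simp : i ∈ A)).2
      have haj : a j ≠ 0 := (hmemA.1 (by rw [hT]; simp : j ∈ A)).2
      have hboth : 2 * (a i).val = m ∧ 2 * (a j).val = m := by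
        rcases hor with h | h
        · have := hval2 hai h
          exact ⟨this, by omega⟩
        · have := hval2 haj h
          exact ⟨by omega, this⟩
      intro n
      by_cases hn0 : n = 0
      · rw [hn0]; exact h2a0
      · by_cases hni : n = i
        · rw [hni]; exact two_mul_eq_zero hboth.1
        · by_cases hnj : n = j
          · rw [hnj]; exact two_mul_eq_zero hboth.2
          · rw [houtA hT n hn0 (by simp [hni, hnj]), mul_zero]
    · right
      refine ⟨he2', h2a0, ?_⟩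
      rw [hT, Finset.sum_insert (by simp [hij, hil]), Finset.sum_insert (by simpa using hjl),
        Finset.sum_singleton, g1, g2, g3] at hnumA
      have hi := hmemA.1 (by rw [hT]; simp : i ∈ A)
      have hj := hmemA.1 (by rw [hT]; simp : j ∈ A)
      have hl := hmemA.1 (by rw [hT]; simp : l ∈ A)
      have hor : 2 * a i = 0 ∨ 2 * a j = 0 ∨ 2 * a l = 0 := by
        by_contra hcon
        push Not at hcon
        rw [hT, Finset.filter_true_of_mem, hT.symm, hsum3] at hb2'
        · omega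
        · intro n hn
          simp only [Finset.mem_insert, Finset.mem_singleton] at hn
          rcases hn with rfl | rfl | rfl
          · exact hcon.1
          · exact hcon.2.1
          · exact hcon.2.2
      have hval2 : ∀ {x : ZMod m}, x ≠ 0 → 2 * x = 0 → 2 * x.val = m := by
        intro x hx h2x
        have h7 : ((2 * x.val : ℕ) : ZMod m) = 0 := by
          push_cast
          rw [ZMod.natCast_zmod_val, h2x]
        rw [ZMod.natCast_eq_zero_iff] at h7
        obtain ⟨r, hr⟩ := h7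
        have h8 := x.val_lt
        have h9 : x.val ≠ 0 := fun h => hx ((ZMod.val_eq_zero x).1 h)
        have h10 : r < 2 := by
          by_contra hcon
          have : m * 2 ≤ m * r := Nat.mul_le_mul_left m (by omega)
          omega
        have h11 : r ≠ 0 := by
          rintro rfl
          omega
        have : r = 1 := by omega
        rw [hr, this, mul_one]
      have hopp : ∀ {x y : ZMod m}, x.val + y.val = m → x = -y := by
        intro x y hxy
        have h5 : ((x.val + y.val : ℕ) : ZMod m) = 0 := by rw [hxy, ZMod.natCast_self]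
        push_cast at h5
        rw [ZMod.natCast_zmod_val, ZMod.natCast_zmod_val] at h5
        exact eq_neg_of_add_eq_zero_left h5
      have hti := ht0 i hi.1 hi.2
      have htj := ht0 j hj.1 hj.2
      have htl := ht0 l hl.1 hl.2
      rcases hor with h | h | h
      · have hv := hval2 hi.2 h
        refine ⟨i, j, l, hi.1, hj.1, hl.1, hij, hil, hjl, g1, g2, g3, hti, htj, htl, h,
          hopp (by omega), fun n k0 k1 k2 k3 => houtA hT n k0 (by simp [k1, k2, k3])⟩
      · have hv := hval2 hj.2 h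
        refine ⟨j, i, l, hj.1, hi.1, hl.1, hij.symm, hjl, hil, g2, g1, g3, htj, hti, htl, h,
          hopp (by omega), fun n k0 k1 k2 k3 => houtA hT n k0 (by simp [k1, k2, k3])⟩
      · have hv := hval2 hl.2 h
        refine ⟨l, i, j, hl.1, hi.1, hj.1, hil.symm, hjl.symm, hij, g3, g1, g2, htl, hti, htj, h,
          hopp (by omega), fun n k0 k1 k2 k3 => houtA hT n k0 (by simp [k1, k2, k3])⟩

theorem bloch (hB : BranchCurves e d t) {ψ : AddChar (ZMod m) ℂ} (hψ : ψ.IsPrimitive)
    {V : Type} [AddCommGroup V] [Module ℂ V]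
    {ρ : Representation ℂ (Multiplicative (Fin (s + 1) → ZMod m)) V}
    (hX : HirzebruchCover e d t Λ ψ ρ) (hno : ∀ a ∈ Λ, ¬ HasForms e d t a) (v : V) : v = 0 := by
  rw [← sum_comp (ρ := ρ) hψ v]
  refine Finset.sum_eq_zero fun a _ => ?_
  by_contra h0
  have he : Eigen ψ ρ a (comp ρ ψ v a) := eigen_comp v a
  have ha := hX.characters a _ h0 he
  have hmul : ∀ n : ℕ, ¬ HasForms e d t (n • a) := fun n => hno _ (Λ.nsmul_mem ha n)
  rcases classify hB hX.integral hno ha with h1 | ⟨h1, h2, h3⟩ | ⟨h1, h1', h2, h3, h4⟩ |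
    ⟨h1, h2, i, j, l, h3, h4, h5, h6, h7, h8, h9, h10, h11, h12, h13, h14, h15, h16, h17⟩
  · exact h0 (hX.fibred a ha h1 hmul _ he.kerFixed)
  · exact h0 (hX.plane h1 a ha h2 h3 hmul _ he.kerFixed)
  · exact h0 (hX.cone h1 a ha h1' h2 h3 h4 _ he.kerFixed)
  · exact h0 (hX.conics h1 a ha h2 i j l h3 h4 h5 h6 h7 h8 h9 h10 h11 h12 h13 h14 h15 h16 h17 _
      he.kerFixed)

end Pool.Agent.Q63.HC
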